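import Mathlib
import Pool.Agent.Lib.MP_bf61d2_nt.Trim.TwistMain

set_option autoImplicit false

/-!
Bessel inequality for all quadratic twists and all points of the edge together.
-/

namespace NumberField
end NumberField

namespace WeierstrassCurve
end WeierstrassCurve

namespace Pool.Agent.Lib.MP_bf61d2_nt

open Filter Topology NumberField IsDedekindDomain WeierstrassCurve

variable {K : Type*} [Field K] [NumberField K]

/-- The quadratic twist. -/
def qt (E : WeierstrassCurve K) (d : K) : WeierstrassCurve K :=
  ⟨0, d * (E.b₂ / 4), 0, d ^ 2 * (E.b₄ / 2), d ^ 3 * (E.b₆ / 4)⟩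

lemma qt_eq (E : WeierstrassCurve K) (d : K) :
    qt E d = (⟨1, d * E.b₂ / 12, 0, 0⟩ : VariableChange K) •
      tc (-E.c₄ / 48) (-E.c₆ / 864) d := by
  rw [variableChange_def]
  ext
  · simp [qt, tc]
  · simp only [qt, tc, Units.val_inv_eq_inv_val, Units.val_one]
    field_simp
    ring
  · simp [qt, tc]
  · simp only [qt, tc, Units.val_inv_eq_inv_val, Units.val_one, c₄]
    field_simp
    ring
  · simp only [qt, tc, Units.val_inv_eq_inv_val, Units.val_one, c₄, c₆]
    field_simp
    ring

end Pool.Agent.Lib.MP_bf61d2_nt
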