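import Mathlib
import Pool.Agent.Lib.MP_bf61d2_nt.Trim.Bessel
import Pool.Agent.Lib.MP_bf61d2_nt.Trim.Places
import Pool.Agent.Lib.MP_bf61d2_nt.Trim.PrimeCos
import Pool.Agent.Lib.MP_bf61d2_nt.Trim.PrimeSum
import Pool.Agent.Lib.MP_bf61d2_nt.Trim.Zeta.ClassSum
import Pool.Agent.Lib.MP_bf61d2_nt.Trim.Zeta.Nonvanish

set_option autoImplicit false

/-!
Sums over the places of a number field with a cosine weight.
-/

namespace NumberField
end NumberField

namespace Pool.Agent.Lib.MP_bf61d2_nt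

open Filter Topology NumberField IsDedekindDomain

/-- The sum over the places with a cosine weight. -/
noncomputable def CS (K : Type*) [Field K] [NumberField K] (σ τ : ℝ) : ℝ :=
  ∑' v : HeightOneSpectrum (𝓞 K), wp σ v * Real.cos (τ * Real.log (nm v))

variable {K : Type*} [Field K] [NumberField K]

lemma summable_CS {σ : ℝ} (hσ : 1 < σ) (τ : ℝ) : Summable fun v : HeightOneSpectrum (𝓞 K) =>
    wp σ v * Real.cos (τ * Real.log (nm v)) :=
  summable_mul_bdd (summable_wp hσ) (fun v => (wp_pos σ v).le) (B := 1)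
    fun _ => Real.abs_cos_le_one _

omit [NumberField K] in
lemma local_log {z : ℂ} (hz : ‖z‖ ≤ 1 / 2) :
    |Real.log ‖(1 - z)⁻¹‖ - z.re| ≤ ‖z‖ ^ 2 := by
  have h1 : ‖-z‖ < 1 := by rw [norm_neg]; linarith
  have h2 := Complex.norm_log_one_add_sub_self_le h1
  rw [norm_neg] at h2
  have h3 : ‖z‖ ^ 2 * (1 - ‖z‖)⁻¹ / 2 ≤ ‖z‖ ^ 2 := by
    have h4 : (1 - ‖z‖)⁻¹ ≤ 2 := by
      rw [inv_le_comm₀ (by linarith) (by norm_num)]
      linarith
    have h5 : 0 ≤ ‖z‖ ^ 2 := by positivity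
    nlinarith
  have h4 : Real.log ‖(1 - z)⁻¹‖ - z.re = -(Complex.log (1 + -z) - -z).re := by
    rw [norm_inv, Real.log_inv, ← sub_eq_add_neg, Complex.sub_re, Complex.log_re, Complex.neg_re]
    ring
  rw [h4, abs_neg]
  exact (Complex.abs_re_le_norm _).trans (h2.trans h3)

lemma log_zeta_CS {η : ℝ} (hη : 0 < η) (u : ℝ) :
    |Real.log ‖dedekindZeta K (1 + η + u * Complex.I)‖ - CS K (1 + η) u| ≤ sqC K := by
  set s : ℂ := 1 + η + u * Complex.I with hs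
  have hre : s.re = 1 + η := by simp [hs]
  have h1 : 1 < s.re := by rw [hre]; linarith
  have hne : dedekindZeta K s ≠ 0 := Zeta.ne_zero_of_pos hη u
  have hE := (Zeta.tendsto_euler (K := K) h1).norm.log (norm_ne_zero_iff.mpr hne)
  have hC : Tendsto (fun S : Finset (HeightOneSpectrum (𝓞 K)) =>
      ∑ v ∈ S, wp (1 + η) v * Real.cos (u * Real.log (nm v))) atTop (𝓝 (CS K (1 + η) u)) :=
    (summable_CS (by linarith) u).hasSum
  refine le_of_tendsto (hE.sub hC).abs (Eventually.of_forall fun S => ?_)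
  have hnorm : ∀ v : HeightOneSpectrum (𝓞 K), ‖(nm v : ℂ) ^ (-s)‖ = wp (1 + η) v := fun v => by
    rw [Zeta.norm_term h1, hre]; rfl
  have hhalf : ∀ v : HeightOneSpectrum (𝓞 K), ‖(nm v : ℂ) ^ (-s)‖ ≤ 1 / 2 := fun v => by
    rw [hnorm]; exact wp_le_half (by linarith) v
  have hne1 : ∀ v : HeightOneSpectrum (𝓞 K), ‖(1 - (nm v : ℂ) ^ (-s))⁻¹‖ ≠ 0 := fun v => by
    rw [norm_ne_zero_iff]
    refine inv_ne_zero fun h => ?_
    have h2 : (nm v : ℂ) ^ (-s) = 1 := (sub_eq_zero.mp h).symm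
    have h3 := hhalf v
    rw [h2, norm_one] at h3
    norm_num at h3
  rw [norm_prod, Real.log_prod fun v _ => hne1 v, ← Finset.sum_sub_distrib]
  have hterm : ∀ v ∈ S, |Real.log ‖(1 - (nm v : ℂ) ^ (-s))⁻¹‖ -
      wp (1 + η) v * Real.cos (u * Real.log (nm v))| ≤ 1 / (pr v : ℝ) ^ 2 := by
    intro v _
    have h2 := local_log (hhalf v)
    have h3 : ((nm v : ℂ) ^ (-s)).re = wp (1 + η) v * Real.cos (u * Real.log (nm v)) := by
      have h4 : -s = -(((1 + η : ℝ) : ℂ) + u * Complex.I) := by rw [hs]; push_cast; ring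
      rw [h4, cpow_re (by have := one_lt_nm v; omega), wp]
    rw [h3] at h2
    refine h2.trans ?_
    rw [hnorm]
    have h5 := wp_le (σ := 1 + η) (by linarith) v
    have h6 : wp (1 + η) v ^ 2 ≤ (1 / (pr v : ℝ)) ^ 2 := pow_le_pow_left₀ (wp_pos _ v).le h5 2
    rwa [one_div_pow] at h6
  calc |∑ v ∈ S, (Real.log ‖(1 - (nm v : ℂ) ^ (-s))⁻¹‖ -
        wp (1 + η) v * Real.cos (u * Real.log (nm v)))|
      ≤ ∑ v ∈ S, (1 / (pr v : ℝ) ^ 2) :=
        (Finset.abs_sum_le_sum_abs _ _).trans (Finset.sum_le_sum hterm)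
    _ ≤ sqC K := summable_pr_sq.sum_le_tsum S fun v _ => by positivity

/-- The cosine sum stays bounded. -/
theorem CS_bound (K : Type*) [Field K] [NumberField K] {u : ℝ} (hu : u ≠ 0) :
    ∃ C : ℝ, 0 ≤ C ∧ ∀ᶠ σ : ℝ in 𝓝[>] 1, |CS K σ u| ≤ C := by
  obtain ⟨C, hC⟩ := Zeta.log_zeta_bounded K (fun w hw => Zeta.exists_continuation K hw) u hu
  have hC0 : 0 ≤ C := (abs_nonneg _).trans (hC 1 (by norm_num))
  have hs0 : 0 ≤ sqC K := tsum_nonneg fun v => by positivity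
  refine ⟨C + sqC K, by positivity, ?_⟩
  have h2 : ∀ᶠ σ : ℝ in 𝓝[>] 1, σ ∈ Set.Ioo (1 : ℝ) 2 := Ioo_mem_nhdsGT (by norm_num)
  filter_upwards [h2] with σ hσ
  have hη : 0 < σ - 1 := by linarith [hσ.1]
  have h3 := hC (σ - 1) ⟨hη, by linarith [hσ.2]⟩
  have h4 := log_zeta_CS (K := K) hη u
  rw [add_sub_cancel] at h4
  have h5 := abs_le.mp h3
  have h6 := abs_le.mp h4
  rw [abs_le]
  constructor <;> linarith [h5.1, h5.2, h6.1, h6.2]

end Pool.Agent.Lib.MP_bf61d2_nt
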